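import Pool.Agent.helper47.SC.Spec

/-!
# Row `sc:PBA`: plurisubharmonic functions are finite almost everywhere on balls
-/

set_option autoImplicit false

open scoped Topology ContDiff
open Set Filter Metric MeasureTheory

namespace Pool.Agent.SC

private theorem PBA_open (V : Set C4) (u : C4 → EReal) (hV : IsOpen V) (hu : PshOn V u) (z : C4)
    (r : ℝ) (hb : ball z r ⊆ V) (y : EReal) : IsOpen {w | w ∈ ball z r ∧ u w < y} := by
  rw [isOpen_iff_mem_nhds]
  rintro w ⟨hw, hwy⟩
  have h1 : ∀ᶠ x in 𝓝[V] w, u x < y := hu.2.1 w (hb hw) y hwy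
  rw [hV.nhdsWithin_eq (hb hw)] at h1
  filter_upwards [h1, isOpen_ball.mem_nhds hw] with x hx hx' using ⟨hx', hx⟩

private theorem PBA_meas (V : Set C4) (u : C4 → EReal) (hV : IsOpen V) (hu : PshOn V u) (z : C4)
    (r : ℝ) (hb : ball z r ⊆ V) : MeasurableSet {w | w ∈ ball z r ∧ u w = ⊥} := by
  have e : {w | w ∈ ball z r ∧ u w = ⊥} =
      ⋂ n : ℕ, {w | w ∈ ball z r ∧ u w < ((-(n : ℝ) : ℝ) : EReal)} := by
    ext w
    simp only [mem_ofPred_eq, mem_iInter]
    constructor
    · rintro ⟨h1, h2⟩ n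
      refine ⟨h1, ?_⟩
      rw [h2]
      exact EReal.bot_lt_coe _
    · intro h
      refine ⟨(h 0).1, ?_⟩
      rw [EReal.eq_bot_iff_forall_lt]
      intro y
      obtain ⟨n, hn⟩ := exists_nat_gt (-y)
      refine (h n).2.trans ?_
      rw [EReal.coe_lt_coe_iff]
      linarith
  rw [e]
  exact MeasurableSet.iInter fun n => (PBA_open V u hV hu z r hb _).measurableSet

private theorem PBA_haar2 : (volume : Measure (ℂ × ℂ)).IsAddHaarMeasure :=
  inferInstanceAs ((volume : Measure ℂ).prod (volume : Measure ℂ)).IsAddHaarMeasure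

private theorem PBA_haar3 : (volume : Measure (ℂ × ℂ × ℂ)).IsAddHaarMeasure := by
  have i := PBA_haar2
  have j : ((volume : Measure ℂ).prod (volume : Measure (ℂ × ℂ))).IsAddHaarMeasure :=
    Measure.prod.instIsAddHaarMeasure _ _
  exact j

private theorem PBA_haar4 : (volume : Measure C4).IsAddHaarMeasure := by
  have i := PBA_haar3
  have j : ((volume : Measure ℂ).prod (volume : Measure (ℂ × ℂ × ℂ))).IsAddHaarMeasure :=
    Measure.prod.instIsAddHaarMeasure _ _
  exact j

theorem PBA (h1 : PCI_stmt) : PBA_stmt := by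
  intro V u hV hu z r hb hz
  have := PBA_haar4
  set N : Set C4 := {w | w ∈ ball z r ∧ u w = ⊥} with hN
  have hNm : MeasurableSet N := PBA_meas V u hV hu z r hb
  let F : ℝ × C4 → C4 := fun p => z + Complex.exp (p.1 * Complex.I) • p.2
  have hF : Continuous F := by fun_prop
  set P : Set (ℝ × C4) := (Ioo 0 (2 * Real.pi) ×ˢ univ) ∩ F ⁻¹' N with hP
  have hPm : MeasurableSet P :=
    (measurableSet_Ioo.prod MeasurableSet.univ).inter (hF.measurable hNm)
  have hnorm : ∀ (θ : ℝ) (v : C4), ‖Complex.exp (θ * Complex.I) • v‖ = ‖v‖ := by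
    intro θ v
    rw [norm_smul, Complex.norm_exp_ofReal_mul_I, one_mul]
  have hP0 : ((volume : Measure ℝ).prod (volume : Measure C4)) P = 0 := by
    rw [Measure.prod_apply_symm hPm]
    have : ∀ v : C4, volume ((fun x : ℝ => (x, v)) ⁻¹' P) = 0 := by
      intro v
      by_cases hv : ‖v‖ < r
      · have hin : ∀ ζ : ℂ, ‖ζ‖ ≤ 1 → z + ζ • v ∈ V := by
          intro ζ hζ
          apply hb
          rw [mem_ball, dist_eq_norm, add_sub_cancel_left, norm_smul]
          calc ‖ζ‖ * ‖v‖ ≤ 1 * ‖v‖ := mul_le_mul_of_nonneg_right hζ (norm_nonneg v)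
            _ = ‖v‖ := one_mul _
            _ < r := hv
        refine measure_mono_null ?_ (h1 V u hV hu z v hin hz)
        rintro θ ⟨⟨hθ, -⟩, hθ2⟩
        exact ⟨hθ, hθ2.2⟩
      · have e : (fun x : ℝ => (x, v)) ⁻¹' P = ∅ := by
          rw [eq_empty_iff_forall_notMem]
          rintro θ ⟨-, hθ2⟩
          have h3 : F (θ, v) ∈ ball z r := hθ2.1
          rw [mem_ball, dist_eq_norm] at h3
          change ‖z + Complex.exp (θ * Complex.I) • v - z‖ < r at h3
          rw [add_sub_cancel_left, hnorm] at h3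
          exact hv h3
        rw [e, measure_empty]
    simp only [this, lintegral_zero]
  rw [Measure.measure_prod_null hPm] at hP0
  have hex : ∃ θ ∈ Ioo (0 : ℝ) (2 * Real.pi), volume (Prod.mk θ ⁻¹' P) = 0 := by
    by_contra hcon
    push Not at hcon
    have h4 : volume (Ioo (0 : ℝ) (2 * Real.pi)) = 0 := by
      refine measure_mono_null ?_ (ae_iff.1 hP0)
      intro θ hθ
      exact hcon θ hθ
    rw [Real.volume_Ioo, ENNReal.ofReal_eq_zero] at h4
    linarith [Real.pi_pos]
  obtain ⟨θ, hθ, hθ0⟩ := hex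
  have hc : Complex.exp (θ * Complex.I) ≠ 0 := Complex.exp_ne_zero _
  let L : C4 ≃ₗ[ℝ] C4 := (LinearEquiv.smulOfNeZero ℂ C4 _ hc).restrictScalars ℝ
  have e1 : Prod.mk θ ⁻¹' P = L ⁻¹' ((fun w => z + w) ⁻¹' N) := by
    ext v
    constructor
    · rintro ⟨-, h5⟩
      exact h5
    · intro h5
      exact ⟨⟨hθ, mem_univ _⟩, h5⟩
  rw [e1, Measure.addHaar_preimage_linearEquiv, mul_eq_zero] at hθ0
  rcases hθ0 with h6 | h6
  · exfalso
    rw [ENNReal.ofReal_eq_zero] at h6
    have h7 : LinearMap.det (L.symm : C4 →ₗ[ℝ] C4) ≠ 0 := (LinearEquiv.isUnit_det' L.symm).ne_zero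
    exact absurd (abs_pos.2 h7) (not_lt.2 h6)
  · rwa [measure_preimage_add] at h6

end Pool.Agent.SC
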