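import Pool.Agent.helper82.SC.SpecA

/-! # Project sp, module GM: matching for wall configurations -/

namespace Pool.Agent.helper82.SC

open Relation

theorem GM_z2 : ∀ a b c : ZMod 2, a + b + c = 0 → a = 1 → (b = 1 ∧ c = 0) ∨ (b = 0 ∧ c = 1) := by
  decide

theorem GM_z2' : ∀ a : ZMod 2, a ≠ 1 ↔ a = 0 := by
  decide

/-- The other wall dart at the face. -/
def GM_oth (ψ : Dart → ZMod 2) (x : Dart) : Dart :=
  if ψ (x.1, x.2 + 1) = 1 then (x.1, x.2 + 1) else (x.1, x.2 + 2)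

theorem GM_oth_spec (ψ : Dart → ZMod 2) (x : Dart) (hx : ψ x = 1)
    (hev : ψ (x.1, 0) + ψ (x.1, 1) + ψ (x.1, 2) = 0) :
    ψ (GM_oth ψ x) = 1 ∧ (GM_oth ψ x).1 = x.1 ∧ GM_oth ψ x ≠ x ∧
      ∀ y : Dart, y.1 = x.1 → ψ y = 1 → y ≠ x → y = GM_oth ψ x := by
  obtain ⟨f, d⟩ := x
  have hsum : ψ (f, d) + ψ (f, d + 1) + ψ (f, d + 2) = 0 := by
    simp only at hev
    fin_cases d
    · exact hev
    · change ψ (f, 1) + ψ (f, 2) + ψ (f, 0) = 0
      rw [← hev]; ring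
    · change ψ (f, 2) + ψ (f, 0) + ψ (f, 1) = 0
      rw [← hev]; ring
  have hd1 : d + 1 ≠ d := by fin_cases d <;> decide
  have hd2 : d + 2 ≠ d := by fin_cases d <;> decide
  have hcase : ∀ e : Fin 3, e ≠ d → e = d + 1 ∨ e = d + 2 := by
    intro e he
    fin_cases d <;> fin_cases e <;> first | exact absurd rfl he | decide
  rcases GM_z2 _ _ _ hsum hx with ⟨h1, h2⟩ | ⟨h1, h2⟩
  · have ho : GM_oth ψ (f, d) = (f, d + 1) := by
      show (if ψ (f, d + 1) = 1 then (f, d + 1) else (f, d + 2)) = _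
      rw [if_pos h1]
    rw [ho]
    refine ⟨h1, rfl, fun h => hd1 (congrArg Prod.snd h), ?_⟩
    rintro ⟨g, e⟩ hg hy hne
    obtain rfl : g = f := hg
    rcases hcase e (fun h => hne (by rw [h])) with rfl | rfl
    · rfl
    · rw [h2] at hy
      exact absurd hy (by decide)
  · have ho : GM_oth ψ (f, d) = (f, d + 2) := by
      show (if ψ (f, d + 1) = 1 then (f, d + 1) else (f, d + 2)) = _
      rw [if_neg (by rw [h1]; decide)]
    rw [ho]
    refine ⟨h2, rfl, fun h => hd2 (congrArg Prod.snd h), ?_⟩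
    rintro ⟨g, e⟩ hg hy hne
    obtain rfl : g = f := hg
    rcases hcase e (fun h => hne (by rw [h])) with rfl | rfl
    · rw [h1] at hy
      exact absurd hy (by decide)
    · rfl

/-- The wall darts on the sides of `K`. -/
abbrev GM_X (K : Set F) (ψ : Dart → ZMod 2) : Type := {x : Dart // ψ x = 1 ∧ (x.1 ∈ K ∨ (star x).1 ∈ K)}

theorem GM_finite (K : Set F) (ψ : Dart → ZMod 2) (hK : K.Finite) : Finite (GM_X K ψ) := by
  have h1 : {x : Dart | x.1 ∈ K}.Finite := by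
    have : {x : Dart | x.1 ∈ K} = K ×ˢ (Set.univ : Set (Fin 3)) := by
      ext x
      simp
    rw [this]
    exact hK.prod Set.finite_univ
  have h2 : {x : Dart | (star x).1 ∈ K}.Finite :=
    h1.preimage (f := star) (fun a _ b _ h => by
      have := congrArg star h
      simpa using this)
  exact ((h1.union h2).subset (fun x hx => hx.2)).to_subtype

open Classical in
/-- The two involutions. -/
theorem GM_main (K : Set F) (ψ : Dart → ZMod 2) (hev : ∀ f ∈ K, ψ (f, 0) + ψ (f, 1) + ψ (f, 2) = 0) :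
    ∃ σ ρ : GM_X K ψ → GM_X K ψ, Function.Involutive σ ∧ Function.Involutive ρ ∧
      (∀ x, σ x = x ↔ x.1.1 ∉ K) ∧ (∀ x, ρ x = x ↔ ψ (star x.1) = 0) ∧
      (∀ x, x.1.1 ∈ K → (σ x).1 ≠ x.1 ∧ (σ x).1.1 = x.1.1) ∧
      (∀ x, ψ (star x.1) = 1 → (ρ x).1 = star x.1) ∧
      (∀ x : GM_X K ψ, ∀ y : Dart, x.1.1 ∈ K → y.1 = x.1.1 → ψ y = 1 → y ≠ x.1 → y = (σ x).1) := by
  let σ : GM_X K ψ → GM_X K ψ := fun x =>
    if h : x.1.1 ∈ K then ⟨GM_oth ψ x.1, (GM_oth_spec ψ x.1 x.2.1 (hev _ h)).1, Or.inl (by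
      rw [(GM_oth_spec ψ x.1 x.2.1 (hev _ h)).2.1]; exact h)⟩ else x
  let ρ : GM_X K ψ → GM_X K ψ := fun x =>
    if h : ψ (star x.1) = 1 then ⟨star x.1, h, by rw [star_star]; exact x.2.2.symm⟩ else x
  have hσ1 : ∀ x : GM_X K ψ, x.1.1 ∈ K → (σ x).1 = GM_oth ψ x.1 := by
    intro x h
    have h1 : σ x = ⟨GM_oth ψ x.1, (GM_oth_spec ψ x.1 x.2.1 (hev _ h)).1, Or.inl (by
      rw [(GM_oth_spec ψ x.1 x.2.1 (hev _ h)).2.1]; exact h)⟩ := dif_pos h
    rw [h1]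
  have hσ2 : ∀ x : GM_X K ψ, x.1.1 ∉ K → σ x = x := by
    intro x h
    exact dif_neg h
  have hρ1 : ∀ x : GM_X K ψ, ψ (star x.1) = 1 → (ρ x).1 = star x.1 := by
    intro x h
    have h1 : ρ x = ⟨star x.1, h, by rw [star_star]; exact x.2.2.symm⟩ := dif_pos h
    rw [h1]
  have hρ2 : ∀ x : GM_X K ψ, ψ (star x.1) ≠ 1 → ρ x = x := by
    intro x h
    exact dif_neg h
  refine ⟨σ, ρ, ?_, ?_, ?_, ?_, ?_, hρ1, ?_⟩
  · intro x
    by_cases h : x.1.1 ∈ K
    · obtain ⟨h1, h2, h3, h4⟩ := GM_oth_spec ψ x.1 x.2.1 (hev _ h)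
      have hk : (σ x).1.1 ∈ K := by rw [hσ1 x h, h2]; exact h
      apply Subtype.ext
      rw [hσ1 _ hk, hσ1 x h]
      obtain ⟨g1, g2, g3, g4⟩ := GM_oth_spec ψ (GM_oth ψ x.1) h1 (by rw [h2]; exact hev _ h)
      exact (g4 x.1 h2.symm x.2.1 h3.symm).symm
    · rw [hσ2 x h, hσ2 x h]
  · intro x
    by_cases h : ψ (star x.1) = 1
    · apply Subtype.ext
      rw [hρ1 _ (by rw [hρ1 x h, star_star]; exact x.2.1), hρ1 x h, star_star]
    · rw [hρ2 x h, hρ2 x h]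
  · intro x
    constructor
    · intro h hk
      have h1 := congrArg Subtype.val h
      rw [hσ1 x hk] at h1
      exact (GM_oth_spec ψ x.1 x.2.1 (hev _ hk)).2.2.1 h1
    · exact hσ2 x
  · intro x
    rw [← GM_z2']
    constructor
    · intro h hk
      have h1 := congrArg Subtype.val h
      rw [hρ1 x hk] at h1
      exact star_ne _ h1
    · exact hρ2 x
  · intro x h
    rw [hσ1 x h]
    exact ⟨(GM_oth_spec ψ x.1 x.2.1 (hev _ h)).2.2.1, (GM_oth_spec ψ x.1 x.2.1 (hev _ h)).2.1⟩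
  · intro x y h hy hy1 hne
    rw [hσ1 x h]
    exact (GM_oth_spec ψ x.1 x.2.1 (hev _ h)).2.2.2 y hy hy1 hne

theorem GM (hMA : MA_stmt) : GM_stmt := by
  intro K ψ hK hev i hi
  obtain ⟨σ, ρ, hσ, hρ, hσf, hρf, hσ1, hρ1, hσu⟩ := GM_main K ψ hev
  have hfin := GM_finite K ψ hK
  -- incidences
  have hFx : ∀ j : GM_X K ψ × Bool, Fx σ ρ j ↔ Inc K ψ (j.1.1, j.2) := by
    rintro ⟨x, b⟩
    unfold Fx Inc
    cases b with
    | true =>
      simp only [if_true]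
      rw [hσf x]
      exact ⟨fun h => ⟨x.2.1, x.2.2, h⟩, fun h => h.2.2⟩
    | false =>
      simp only [Bool.false_eq_true, if_false]
      rw [hρf x]
      exact ⟨fun h => ⟨x.2.1, x.2.2, h⟩, fun h => h.2.2⟩
  -- connections
  have hc1 : ∀ x y : GM_X K ψ, ReflTransGen (fun a b => b = σ a ∨ b = ρ a) x y → CnK K ψ x.1 y.1 := by
    intro x y h
    induction h with
    | refl => exact ReflTransGen.refl
    | @tail b c hab hbc ih =>
      by_cases hbc' : c = b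
      · rw [hbc']; exact ih
      · refine ReflTransGen.tail ih ⟨b.2.1, c.2.1, ?_⟩
        rcases hbc with h | h
        · have hk : b.1.1 ∈ K := by
            by_contra hk
            exact hbc' (by rw [h]; exact (hσf b).mpr hk)
          left
          obtain ⟨h1, h2⟩ := hσ1 b hk
          rw [h]
          exact ⟨hk, h2.symm, h1.symm⟩
        · have hk : ψ (star b.1) = 1 := by
            by_contra hk
            exact hbc' (by rw [h]; exact (hρf b).mpr ((GM_z2' _).mp hk))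
          right
          rw [h, hρ1 b hk]
          exact ⟨b.2.2, rfl⟩
  have hc2 : ∀ (x : GM_X K ψ) (y : Dart), CnK K ψ x.1 y →
      ∃ y' : GM_X K ψ, y'.1 = y ∧ ReflTransGen (fun a b => b = σ a ∨ b = ρ a) x y' := by
    intro x y h
    induction h with
    | refl => exact ⟨x, rfl, ReflTransGen.refl⟩
    | @tail b c hab hbc ih =>
      obtain ⟨b', rfl, hb'⟩ := ih
      obtain ⟨_, hc, h | h⟩ := hbc
      · refine ⟨σ b', (hσu b' c h.1 h.2.1.symm hc h.2.2.symm).symm, hb'.tail (Or.inl rfl)⟩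
      · refine ⟨ρ b', ?_, hb'.tail (Or.inr rfl)⟩
        rw [hρ1 b' (by rw [← h.2]; exact hc), h.2]
  -- transfer
  have hiX : ψ i.1 = 1 ∧ (i.1.1 ∈ K ∨ (star i.1).1 ∈ K) := ⟨hi.1, hi.2.1⟩
  set i0 : GM_X K ψ × Bool := (⟨i.1, hiX⟩, i.2) with hi0
  obtain ⟨j, ⟨hj1, hj2, hj3⟩, hju⟩ := hMA (GM_X K ψ) σ ρ hσ hρ i0 ((hFx i0).mpr hi)
  refine ⟨(j.1.1, j.2), ⟨?_, (hFx j).mp hj2, hc1 _ _ hj3⟩, ?_⟩
  · intro h
    apply hj1
    rw [hi0]
    refine Prod.ext (Subtype.ext ?_) ?_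
    · have h5 := congrArg Prod.fst h
      exact h5
    · have h5 := congrArg Prod.snd h
      exact h5
  · rintro ⟨y, b⟩ ⟨h1, h2, h3⟩
    obtain ⟨y', rfl, hy'⟩ := hc2 i0.1 y h3
    have h4 := hju (y', b) ⟨?_, (hFx (y', b)).mpr h2, hy'⟩
    · rw [← h4]
    · intro h
      apply h1
      rw [hi0] at h
      have h5 := congrArg (fun z : GM_X K ψ × Bool => (z.1.1, z.2)) h
      exact h5

end Pool.Agent.helper82.SC
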