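import Pool.Agent.helper58.SC.MO

/-!
SC project, module WA: weakly harmonic convex functions are flat.
-/

open scoped Pointwise ContDiff Convolution
open MeasureTheory Set Filter Topology

namespace Pool.Agent.helper83.SC

theorem WA_ext {m : ℕ} {L L' : E m →L[ℝ] ℝ} (h : ∀ i, L (e i) = L' (e i)) : L = L' := by
  apply ContinuousLinearMap.coe_injective
  refine (EuclideanSpace.basisFun (Fin m) ℝ).toBasis.ext fun i => ?_
  have := h i
  simpa [e] using this

theorem WA_pd_smooth {m : ℕ} {g : E m → ℝ} (hg : ContDiff ℝ ∞ g) (i : Fin m) :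
    ContDiff ℝ ∞ (pd i g) := by
  have h1 : ContDiff ℝ ∞ (fderiv ℝ g) := hg.fderiv_right (by simp)
  exact h1.clm_apply contDiff_const

theorem WA_pd_supp {m : ℕ} {g : E m → ℝ} (hg : HasCompactSupport g) (i : Fin m) :
    HasCompactSupport (pd i g) := by
  refine (hg.fderiv (𝕜 := ℝ)).comp_left (g := fun L : E m →L[ℝ] ℝ => L (e i)) ?_
  simp

theorem WA_pd_conv {m : ℕ} {f g : E m → ℝ} (hf : Continuous f) (hg : ContDiff ℝ ∞ g)
    (hgc : HasCompactSupport g) (i : Fin m) :
    pd i (f ⋆[ContinuousLinearMap.mul ℝ ℝ, volume] g) =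
      (f ⋆[ContinuousLinearMap.mul ℝ ℝ, volume] (pd i g)) := by
  funext x
  have h1 := hgc.hasFDerivAt_convolution_right (ContinuousLinearMap.mul ℝ ℝ)
    (hf.locallyIntegrable (μ := volume)) (hg.of_le (by simp)) x
  unfold pd
  rw [h1.fderiv]
  exact convolution_precompR_apply (ContinuousLinearMap.mul ℝ ℝ)
    (hf.locallyIntegrable (μ := volume)) (hgc.fderiv (𝕜 := ℝ))
    (hg.continuous_fderiv (by simp)) x (e i)

theorem WA_pd_refl {m : ℕ} {g : E m → ℝ} (hg : ContDiff ℝ ∞ g) (i : Fin m) (x z : E m) :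
    pd i (fun z => g (x - z)) z = - pd i g (x - z) := by
  unfold pd
  have h1 : HasFDerivAt (fun z : E m => x - z) (-(ContinuousLinearMap.id ℝ (E m))) z := by
    simpa using (hasFDerivAt_id z).const_sub x
  have h2 : HasFDerivAt g (fderiv ℝ g (x - z)) (x - z) :=
    ((hg.differentiable (by simp)) (x - z)).hasFDerivAt
  have h3 := h2.comp z h1
  have h4 : (g ∘ fun z => x - z) = fun z => g (x - z) := rfl
  rw [h4] at h3
  rw [h3.fderiv]
  simp

theorem WA_lap_refl {m : ℕ} {g : E m → ℝ} (hg : ContDiff ℝ ∞ g) (x z : E m) :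
    lap (fun z => g (x - z)) z = lap g (x - z) := by
  unfold lap
  refine Finset.sum_congr rfl fun i _ => ?_
  have h1 : pd i (fun z => g (x - z)) = fun z => - pd i g (x - z) := by
    funext z
    exact WA_pd_refl hg i x z
  rw [h1]
  have h2 : pd i (fun z => - pd i g (x - z)) z = - pd i (fun z => pd i g (x - z)) z := by
    unfold pd
    rw [fderiv_fun_neg]
    rfl
  rw [h2, WA_pd_refl (WA_pd_smooth hg i)]
  ring

theorem WA_lap_moll {m : ℕ} {f : E m → ℝ} (hf : CV f) (k : ℕ) (x : E m) :
    lap (MO_moll f k) x =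
      ∫ t, f t * lap (fun z => (MO_bump m k).normed volume (x - z)) t := by
  have hρ : ContDiff ℝ ∞ ((MO_bump m k).normed volume) := (MO_bump m k).contDiff_normed
  have hρc : HasCompactSupport ((MO_bump m k).normed volume) :=
    (MO_bump m k).hasCompactSupport_normed
  have hfc := MO_cont hf
  have e0 : MO_moll f k =
      (f ⋆[ContinuousLinearMap.mul ℝ ℝ, volume] ((MO_bump m k).normed volume)) := by
    funext y
    unfold MO_moll
    rw [convolution_lsmul_swap, convolution_mul]
    refine integral_congr_ae (Eventually.of_forall fun t => ?_)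
    simp only [smul_eq_mul]
    ring
  have e1 : ∀ i, pd i (pd i (MO_moll f k)) x =
      ∫ t, f t * pd i (pd i ((MO_bump m k).normed volume)) (x - t) := by
    intro i
    rw [e0, WA_pd_conv hfc hρ hρc, WA_pd_conv hfc (WA_pd_smooth hρ i) (WA_pd_supp hρc i)]
    rfl
  unfold lap
  simp only [e1]
  rw [← integral_finsetSum]
  · refine integral_congr_ae (Eventually.of_forall fun t => ?_)
    simp only
    rw [← Finset.mul_sum]
    have := WA_lap_refl hρ x t
    unfold lap at this
    rw [this]
  · intro i _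
    refine Continuous.integrable_of_hasCompactSupport ?_ ?_
    · exact hfc.mul ((WA_pd_smooth (WA_pd_smooth hρ i) i).continuous.comp
        (continuous_const.sub continuous_id))
    · refine HasCompactSupport.mul_left ?_
      exact (WA_pd_supp (WA_pd_supp hρc i) i).comp_homeomorph (Homeomorph.subLeft x)

theorem WA_affine {m : ℕ} {f : E m → ℝ} (hf : ContDiff ℝ ∞ f) {R : ℝ} (hR : 0 < R)
    (h : ∀ x ∈ Metric.ball (0 : E m) R, hess f x = 0)
    {w : E m} (hw : ‖w‖ < R) : f w + f (-w) = 2 * f 0 := by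
  have h0 : (0 : E m) ∈ Metric.ball (0 : E m) R := Metric.mem_ball_self hR
  have hb : IsPreconnected (Metric.ball (0 : E m) R) := (convex_ball 0 R).isPreconnected
  have hpd : ∀ j, ∀ x ∈ Metric.ball (0 : E m) R, pd j f x = pd j f 0 := by
    intro j x hx
    refine Metric.isOpen_ball.is_const_of_fderiv_eq_zero hb
      ((WA_pd_smooth hf j).differentiable (by simp)).differentiableOn (fun y hy => ?_) hx h0
    refine WA_ext fun i => ?_
    have h1 : hess f y i j = 0 := by rw [h y hy]; rfl
    exact h1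
  have hconst : ∀ x ∈ Metric.ball (0 : E m) R, fderiv ℝ f x = fderiv ℝ f 0 := by
    intro x hx
    exact WA_ext fun i => hpd i x hx
  obtain ⟨a, ha⟩ := Metric.isOpen_ball.exists_eq_add_of_fderiv_eq (𝕜 := ℝ)
    (g := fun x => fderiv ℝ f 0 x) hb
    (hf.differentiable (by simp)).differentiableOn
    (fderiv ℝ f 0).differentiable.differentiableOn
    (fun x hx => by
      rw [hconst x hx]
      exact ((fderiv ℝ f 0).fderiv).symm)
  have hw1 : w ∈ Metric.ball (0 : E m) R := by simpa using hw
  have hw2 : -w ∈ Metric.ball (0 : E m) R := by simpa using hw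
  have e1 := ha hw1
  have e2 := ha hw2
  have e3 := ha h0
  simp only [map_neg, map_zero] at e1 e2 e3
  rw [e1, e2, e3]
  ring

theorem WA_psd_zero {m : ℕ} {M : Matrix (Fin m) (Fin m) ℝ} (hM : M.PosSemidef)
    (ht : M.trace = 0) : M = 0 := by
  exact hM.trace_eq_zero_iff.mp ht

theorem flat_of_harmonic_of (hPS : hess_psd_stmt) (hTR : trace_hess_stmt) :
    flat_of_harmonic_stmt := by
  intro m f hf r hr h v
  have key : ∀ k : ℕ, 1 / ((k : ℝ) + 1) < r / 2 → ∀ w : E m, ‖w‖ < r / 2 →
      MO_moll f k w + MO_moll f k (-w) = 2 * MO_moll f k 0 := by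
    intro k hk w hw
    refine WA_affine (MO_smooth hf k) (half_pos hr) ?_ hw
    intro x hx
    have hx' : ‖x‖ < r / 2 := by simpa using hx
    refine WA_psd_zero (hPS (MO_smooth hf k) (MO_convex hf k) x) ?_
    rw [hTR, WA_lap_moll hf]
    refine h _ ⟨?_, ?_, ?_⟩ ?_
    · exact (MO_bump m k).contDiff_normed.comp (contDiff_const.sub contDiff_id)
    · exact (MO_bump m k).hasCompactSupport_normed.comp_homeomorph (Homeomorph.subLeft x)
    · intro z
      exact (MO_bump m k).nonneg_normed _
    · intro z hz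
      have h1 : tsupport (fun z => (MO_bump m k).normed volume (x - z)) ⊆
          Metric.closedBall x (1 / ((k : ℝ) + 1)) := by
        refine closure_minimal ?_ Metric.isClosed_closedBall
        intro y hy
        have h2 : x - y ∈ Function.support ((MO_bump m k).normed (volume : Measure (E m))) := hy
        rw [ContDiffBump.support_normed_eq] at h2
        rw [mem_ball_zero_iff] at h2
        rw [Metric.mem_closedBall, dist_comm, dist_eq_norm]
        exact h2.le
      have h2 := h1 hz
      rw [Metric.mem_closedBall, dist_eq_norm] at h2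
      rw [mem_ball_zero_iff]
      calc ‖z‖ = ‖(z - x) + x‖ := by rw [sub_add_cancel]
        _ ≤ ‖z - x‖ + ‖x‖ := norm_add_le _ _
        _ < r := by linarith
  set ε : ℝ := r / (4 * (‖v‖ + 1)) with hε
  have hv : 0 < ‖v‖ + 1 := by positivity
  have hε0 : 0 < ε := by positivity
  refine ⟨ε, hε0, ?_⟩
  have hw : ‖ε • v‖ < r / 2 := by
    rw [norm_smul, Real.norm_eq_abs, abs_of_pos hε0, hε]
    rw [div_mul_eq_mul_div, div_lt_div_iff₀ (by positivity) two_pos]
    nlinarith [norm_nonneg v]
  rw [zero_add, zero_sub]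
  have hev : ∀ᶠ k : ℕ in atTop, 1 / ((k : ℝ) + 1) < r / 2 :=
    (tendsto_one_div_add_atTop_nhds_zero_nat (𝕜 := ℝ)).eventually_lt_const (half_pos hr)
  have l1 : Tendsto (fun k : ℕ => MO_moll f k (ε • v) + MO_moll f k (-(ε • v))) atTop
      (𝓝 (f (ε • v) + f (-(ε • v)))) := (MO_tendsto hf _).add (MO_tendsto hf _)
  have l2 : Tendsto (fun k : ℕ => 2 * MO_moll f k 0) atTop (𝓝 (2 * f 0)) :=
    (MO_tendsto hf _).const_mul 2
  refine tendsto_nhds_unique (l1.congr' ?_) l2
  filter_upwards [hev] with k hk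
  exact key k hk _ hw

end Pool.Agent.helper83.SC
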